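import Pool.Agent.Helper63.BDX.Poles
import Pool.Agent.Helper25.BD.ChainDefs

/-!
# The nonvanishing for the chain space (exact range, G3)
-/

set_option autoImplicit false

namespace ZC.BDX

theorem hcount_congr {σ σ' : Type*} {m : ℕ} (e : σ ≃ σ') (w : σ → (Fin m → ℤ))
    (w' : σ' → (Fin m → ℤ)) (h : ∀ s, w' (e s) = w s) (d : Fin m → ℤ) :
    hcount w d = hcount w' d := by
  unfold hcount
  refine Nat.card_congr ((Finsupp.domCongr e (M := ℕ)).toEquiv.subtypeEquiv fun a => ?_)
  have h1 : Finsupp.weight w' ((Finsupp.domCongr e (M := ℕ)).toEquiv a) = Finsupp.weight w a := by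
    rw [Finsupp.weight_apply, Finsupp.weight_apply]
    change Finsupp.sum (Finsupp.equivMapDomain e a) _ = _
    rw [Finsupp.equivMapDomain_eq_mapDomain, Finsupp.sum_mapDomain_index]
    · simp only [h]
    · intro b
      exact zero_smul ℕ _
    · intro b m n
      exact add_smul _ _ _
  rw [h1]

/-- the degrees of the equations as natural vectors -/
def dgN (D d j : ℕ) : Fin D → ℕ := fun i =>
  (if (i : ℕ) + 1 = j / d then d - j % d else 0) + (if (i : ℕ) + 1 = j / d + 1 then j % d else 0)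

theorem ofNat_dgN {D d : ℕ} (hd : 0 < d) (j : ℕ) : ofNat (dgN D d j) = dg D d j := by
  funext i
  unfold ofNat dgN dg
  have h1 : ((d : ℤ) * ((j / d : ℕ) + 1) - j) = ((d - j % d : ℕ) : ℤ) := by
    have h2 : d * (j / d) + j % d = j := Nat.div_add_mod j d
    have h3 : j % d < d := Nat.mod_lt j hd
    have h4 : ((d - j % d : ℕ) : ℤ) = d - (j % d : ℕ) := by
      push_cast [h3.le]
      ring
    rw [h4]
    have h5 : (j : ℤ) = d * ((j / d : ℕ) : ℤ) + ((j % d : ℕ) : ℤ) := by exact_mod_cast h2.symm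
    linear_combination -h5
  have h6 : ((j : ℤ) - d * (j / d : ℕ)) = ((j % d : ℕ) : ℤ) := by
    have h2 : d * (j / d) + j % d = j := Nat.div_add_mod j d
    have h5 : (j : ℤ) = d * ((j / d : ℕ) : ℤ) + ((j % d : ℕ) : ℤ) := by exact_mod_cast h2.symm
    linear_combination h5
  rw [h1, h6]
  simp only [Pi.add_apply, Pi.smul_apply, ep, smul_eq_mul, mul_ite, mul_one, mul_zero]
  push_cast
  rfl

theorem size_dgN {D d j : ℕ} (hd : 0 < d) (hj : j ≤ d * D) : size (dgN D d j) = j := by
  have h1 := lam_ofNat (dgN D d j)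
  rw [ofNat_dgN hd] at h1
  unfold dg at h1
  have hz : ∀ i, ep D i = zt D i := fun i => rfl
  rw [lam_add, lam_smul, lam_smul, hz, hz] at h1
  have h2 : d * (j / d) + j % d = j := Nat.div_add_mod j d
  have h3 : j % d < d := Nat.mod_lt j hd
  have h5 : (j : ℤ) = d * ((j / d : ℕ) : ℤ) + ((j % d : ℕ) : ℤ) := by exact_mod_cast h2.symm
  have h4 : j / d ≤ D := by
    rw [Nat.div_le_iff_le_mul_add_pred hd]
    omega
  rcases Nat.lt_or_ge (j / d) D with h6 | h6
  · rw [lam_zt _ _ h6.le, lam_zt _ _ h6] at h1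
    have h7 : ((j / d - 0 : ℕ) : ℤ) = ((j / d : ℕ) : ℤ) := by simp
    have h8 : ((j / d + 1 - 0 : ℕ) : ℤ) = ((j / d : ℕ) : ℤ) + 1 := by simp
    rw [h7, h8] at h1
    have h9 : (size (dgN D d j) : ℤ) = j := by
      rw [← h1]
      linear_combination (0 : ℤ) * h5
    exact_mod_cast h9
  · have h7 : j / d = D := le_antisymm h4 h6
    have h8 : j = d * D := by
      rw [h7] at h2
      omega
    rw [h7, lam_zt _ _ le_rfl, zt_of_lt (Nat.lt_succ_self D)] at h1
    have h10 : lam 0 (0 : Fin D → ℤ) = 0 := by simp [lam]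
    rw [h10, h8] at h1
    have h9 : (size (dgN D d j) : ℤ) = (d * D : ℕ) := by
      rw [h8, ← h1, Nat.sub_zero]
      push_cast
      ring
    rw [h8] at h9 ⊢
    exact_mod_cast h9

theorem size_dgN_last {D d q : ℕ} (hq : q < d) :
    size (dgN D d (d * D + q)) = (d - q) * D := by
  have hd : 0 < d := by omega
  have h1 := lam_ofNat (dgN D d (d * D + q))
  rw [ofNat_dgN hd] at h1
  unfold dg at h1
  have hz : ∀ i, ep D i = zt D i := fun i => rfl
  have h7 : (d * D + q) / d = D := by
    rw [Nat.mul_add_div hd, Nat.div_eq_of_lt hq, add_zero]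
  rw [lam_add, lam_smul, lam_smul, hz, hz, h7, lam_zt _ _ le_rfl,
    zt_of_lt (Nat.lt_succ_self D)] at h1
  have h10 : lam 0 (0 : Fin D → ℤ) = 0 := by simp [lam]
  rw [h10] at h1
  have h9 : (size (dgN D d (d * D + q)) : ℤ) = ((d - q) * D : ℕ) := by
    rw [← h1, Nat.sub_zero]
    push_cast [hq.le]
    ring
  exact_mod_cast h9

theorem low_dgN {D d j k : ℕ} (hd : 0 < d) (hj : j ≤ d * k) : Low k (dgN D d j) := by
  intro i hi
  unfold dgN
  have h2 : d * (j / d) + j % d = j := Nat.div_add_mod j d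
  have h4 : j / d ≤ k := by
    rw [Nat.div_le_iff_le_mul_add_pred hd]
    omega
  rw [if_neg (by omega), zero_add]
  split_ifs with h
  · have h5 : j / d = k := by omega
    rw [h5] at h2
    omega
  · rfl

theorem not_low_dgN {D d j k : ℕ} (hd : 0 < d) (hk : k < D) (hj : d * k < j)
    (hj' : j < d * (D + 1)) : ¬ Low k (dgN D d j) := by
  intro h
  have h2 : d * (j / d) + j % d = j := Nat.div_add_mod j d
  have h3 : j % d < d := Nat.mod_lt j hd
  have h4 : j / d < D + 1 := Nat.div_lt_of_lt_mul hj'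
  have h5 : k ≤ j / d := (Nat.le_div_iff_mul_le hd).2 (by rw [mul_comm]; exact hj.le)
  rcases Nat.eq_or_lt_of_le h5 with h6 | h6
  · have h7 := h ⟨k, hk⟩ le_rfl
    unfold dgN at h7
    rw [if_neg (by simp; omega), if_pos (by simp; omega)] at h7
    rw [← h6] at h2
    omega
  · have h7 := h ⟨j / d - 1, by omega⟩ (by simp; omega)
    unfold dgN at h7
    rw [if_pos (by simp; omega)] at h7
    omega

theorem dgN_ne_zero {D d j : ℕ} (hd : 0 < d) (hD : 0 < D) (hj : 0 < j)
    (hj' : j < d * (D + 1)) : dgN D d j ≠ 0 := by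
  intro h
  exact not_low_dgN (k := 0) hd hD (by simpa using hj) hj' (fun i _ => by rw [h]; rfl)

theorem sum_filter_list {α : Type*} (p : α → Bool) (g : α → ℕ) (T : List α) :
    ((T.filter p).map g).sum = (T.map fun q => if p q then g q else 0).sum := by
  induction T with
  | nil => rfl
  | cons a T ih =>
    by_cases h : p a
    · rw [List.filter_cons_of_pos h, List.map_cons, List.sum_cons, ih, List.map_cons,
        List.sum_cons, if_pos h]
    · rw [List.filter_cons_of_neg h, ih, List.map_cons, List.sum_cons, if_neg h, zero_add]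

theorem sum_costs {D d k : ℕ} (hd : 0 < d) (hk : k < D) (l : ℕ) :
    ∑ j ∈ Finset.range (d * (D + 1) - 1), (if ¬ Low k (dgN D d (j + 1)) then
        l ^ padicValNat l (size (dgN D d (j + 1))) else 0) =
      ∑ j ∈ Finset.Ioc (d * k) (d * D), l ^ padicValNat l j +
        ∑ q ∈ Finset.Ioo 0 d, l ^ padicValNat l (q * D) := by
  classical
  set g : ℕ → ℕ := fun j => if ¬ Low k (dgN D d j) then l ^ padicValNat l (size (dgN D d j))
    else 0 with hg
  have h1 : ∑ j ∈ Finset.range (d * (D + 1) - 1), g (j + 1) =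
      ∑ j ∈ Finset.Ioo 0 (d * (D + 1)), g j := by
    have h2 : 0 < d * (D + 1) := Nat.mul_pos hd (Nat.succ_pos D)
    refine Finset.sum_bij (fun j _ => j + 1) (fun j hj => ?_) (fun a _ b _ h => by omega)
      (fun b hb => ?_) (fun _ _ => rfl)
    · rw [Finset.mem_range] at hj
      rw [Finset.mem_Ioo]
      omega
    · rw [Finset.mem_Ioo] at hb
      exact ⟨b - 1, Finset.mem_range.2 (by omega), by omega⟩
  have h3 : Finset.Ioo 0 (d * (D + 1)) = Finset.Ioc 0 (d * k) ∪ (Finset.Ioc (d * k) (d * D) ∪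
      Finset.Ioo (d * D) (d * (D + 1))) := by
    have h4 : d * k ≤ d * D := Nat.mul_le_mul_left d hk.le
    have h5 : d * (D + 1) = d * D + d := by ring
    ext j
    simp only [Finset.mem_Ioo, Finset.mem_union, Finset.mem_Ioc]
    omega
  have hdis1 : Disjoint (Finset.Ioc (d * k) (d * D)) (Finset.Ioo (d * D) (d * (D + 1))) := by
    rw [Finset.disjoint_left]
    intro j
    simp only [Finset.mem_Ioo, Finset.mem_Ioc]
    omega
  have hdis2 : Disjoint (Finset.Ioc 0 (d * k)) (Finset.Ioc (d * k) (d * D) ∪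
      Finset.Ioo (d * D) (d * (D + 1))) := by
    have h4 : d * k ≤ d * D := Nat.mul_le_mul_left d hk.le
    rw [Finset.disjoint_left]
    intro j
    simp only [Finset.mem_Ioo, Finset.mem_Ioc, Finset.mem_union]
    omega
  rw [h1, h3, Finset.sum_union hdis2, Finset.sum_union hdis1]
  have h6 : ∑ j ∈ Finset.Ioc 0 (d * k), g j = 0 := by
    refine Finset.sum_eq_zero fun j hj => ?_
    rw [Finset.mem_Ioc] at hj
    rw [hg]
    simp only
    rw [if_neg (not_not.2 (low_dgN hd hj.2))]
  have h7 : ∑ j ∈ Finset.Ioc (d * k) (d * D), g j =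
      ∑ j ∈ Finset.Ioc (d * k) (d * D), l ^ padicValNat l j := by
    refine Finset.sum_congr rfl fun j hj => ?_
    rw [Finset.mem_Ioc] at hj
    rw [hg]
    simp only
    have h5 : d * (D + 1) = d * D + d := by ring
    rw [if_pos (not_low_dgN hd hk hj.1 (by omega)), size_dgN hd hj.2]
  have h8 : ∑ j ∈ Finset.Ioo (d * D) (d * (D + 1)), g j =
      ∑ q ∈ Finset.Ioo 0 d, l ^ padicValNat l (q * D) := by
    have h5 : d * (D + 1) = d * D + d := by ring
    have h4 : d * k ≤ d * D := Nat.mul_le_mul_left d hk.le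
    refine (Finset.sum_bij (fun q _ => d * D + (d - q)) (fun q hq => ?_) (fun a ha b hb h => ?_)
      (fun b hb => ?_) (fun q hq => ?_)).symm
    · rw [Finset.mem_Ioo] at hq ⊢
      omega
    · rw [Finset.mem_Ioo] at ha hb
      omega
    · rw [Finset.mem_Ioo] at hb
      exact ⟨d - (b - d * D), Finset.mem_Ioo.2 (by omega), by omega⟩
    · rw [Finset.mem_Ioo] at hq
      rw [hg]
      simp only
      rw [if_pos (not_low_dgN hd hk (by omega) (by omega)), size_dgN_last (by omega)]
      congr 2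
      have : d - (d - q) = q := by omega
      rw [this]
  rw [h6, h7, h8, zero_add]

/-- The index type of the equations: `(a, j - 1, i)`. -/
abbrev Eqs (D : ℕ) {r : ℕ} (d E : Fin r → ℕ) : Type :=
  Σ a : Fin r, Fin (d a * (D + 1) - 1) × Fin (E a)

/-- the degree of an equation -/
def eqdeg (D : ℕ) {r : ℕ} (d E : Fin r → ℕ) (q : Eqs D d E) : Fin D → ℤ :=
  dg D (d q.1) ((q.2.1 : ℕ) + 1)

/-- **The nonvanishing for the chain space.** -/
theorem chain_nonvanishing {l : ℕ} (hl : l.Prime) {D N th r : ℕ} (hD : 0 < D) (d E : Fin r → ℕ)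
    (hd : ∀ a, 0 < d a)
    (hk : ∀ k < D, ∑ a, E a * (∑ j ∈ Finset.Ioc (d a * k) (d a * D), l ^ padicValNat l j +
        ∑ q ∈ Finset.Ioo 0 (d a), l ^ padicValNat l (q * D)) <
      N * (∑ i ∈ Finset.Ioc k D, l ^ padicValNat l i) + th * l ^ padicValNat l (D + 1))
    (T : List (Eqs D d E)) (hT : T.Perm Finset.univ.toList) (C : ℤ) :
    ∃ δ : Fin D → ℤ, (∀ i, C ≤ δ i) ∧
      ((T.map (eqdeg D d E)).foldr dif
        fun δ => (hcount (ZC.wt : CVar D N th → (Fin D → ℤ)) δ : ZMod l)) δ ≠ 0 := by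
  classical
  obtain ⟨m', rfl⟩ : ∃ m', D = m' + 1 := ⟨D - 1, by omega⟩
  let ι : Type := (Fin (m' + 1) × Fin N) ⊕ Fin th
  let u : ι → ℕ := fun s => match s with
    | .inl p => (p.1 : ℕ) + 1
    | .inr _ => m' + 2
  have hu0 : ∀ s, 0 < u s := by
    rintro (p | p)
    · exact Nat.succ_pos _
    · exact Nat.succ_pos _
  have hu : ∀ s, u s ≤ m' + 2 := by
    rintro (p | p)
    · have := p.1.2
      simp only [u]
      omega
    · exact le_rfl
  let e : ι ⊕ Fin m' ≃ CVar (m' + 1) N th :=
    { toFun := fun s => match s with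
        | .inl (.inl p) => .inl p
        | .inl (.inr p) => .inr (.inr p)
        | .inr k => .inr (.inl k)
      invFun := fun s => match s with
        | .inl p => .inl (.inl p)
        | .inr (.inl k) => .inr k
        | .inr (.inr p) => .inl (.inr p)
      left_inv := by rintro ((p | p) | k) <;> rfl
      right_inv := by rintro (p | (k | p)) <;> rfl }
  have hal : ∀ k, al (m' + 1) k = tt (m' + 1) k := by
    intro k
    rw [tt_eq]
    funext i
    simp [al, ep, zt]
  have he : ∀ s, ZC.wt (e s) = chw m' u s := by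
    rintro ((p | p) | k)
    · have := p.1.2
      simp only [e, u, chw, Equiv.coe_fn_mk, ZC.wt]
      rw [if_pos (by omega)]
      rfl
    · simp only [e, u, chw, Equiv.coe_fn_mk, ZC.wt]
      rw [if_neg (by omega), hal]
    · simp only [e, chw, Equiv.coe_fn_mk, ZC.wt]
      rw [hal]
  have hcnt : (fun δ => (hcount (ZC.wt : CVar (m' + 1) N th → (Fin (m' + 1) → ℤ)) δ : ZMod l)) =
      fun δ => (hcount (chw m' u) δ : ZMod l) := by
    funext δ
    rw [hcount_congr e (chw m' u) ZC.wt he δ]
  have hmap : T.map (eqdeg (m' + 1) d E) =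
      (T.map fun q => dgN (m' + 1) (d q.1) ((q.2.1 : ℕ) + 1)).map ofNat := by
    rw [List.map_map]
    refine List.map_congr_left fun q _ => ?_
    rw [Function.comp_apply, ofNat_dgN (hd _)]
    rfl
  rw [hcnt, hmap]
  refine nonvanishing hl hu0 hu _ ?_ ?_ C
  · intro c hc
    obtain ⟨q, -, rfl⟩ := List.mem_map.1 hc
    have h1 := q.2.1.2
    have h2 : 0 < d q.1 * (m' + 1 + 1) := Nat.mul_pos (hd _) (Nat.succ_pos _)
    exact dgN_ne_zero (hd _) hD (Nat.succ_pos _) (by omega)
  · intro k hk'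
    rw [sum_filter_list, List.map_map]
    have h1 : (T.map ((fun c => if (decide ¬ Low k c) = true then l ^ padicValNat l (size c)
        else 0) ∘ fun q : Eqs (m' + 1) d E => dgN (m' + 1) (d q.1) ((q.2.1 : ℕ) + 1))).sum =
        ∑ q : Eqs (m' + 1) d E, if ¬ Low k (dgN (m' + 1) (d q.1) ((q.2.1 : ℕ) + 1)) then
          l ^ padicValNat l (size (dgN (m' + 1) (d q.1) ((q.2.1 : ℕ) + 1))) else 0 := by
      rw [(hT.map _).sum_eq, Finset.sum_map_toList]
      refine Finset.sum_congr rfl fun q _ => ?_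
      simp only [Function.comp_apply, decide_eq_true_eq]
    rw [h1, Fintype.sum_sigma]
    have h2 : ∀ a : Fin r, (∑ q : Fin (d a * (m' + 1 + 1) - 1) × Fin (E a),
        if ¬ Low k (dgN (m' + 1) (d a) ((q.1 : ℕ) + 1)) then
          l ^ padicValNat l (size (dgN (m' + 1) (d a) ((q.1 : ℕ) + 1))) else 0) =
        E a * (∑ j ∈ Finset.Ioc (d a * k) (d a * (m' + 1)), l ^ padicValNat l j +
        ∑ q ∈ Finset.Ioo 0 (d a), l ^ padicValNat l (q * (m' + 1))) := by
      intro a
      rw [Fintype.sum_prod_type]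
      simp only [Finset.sum_const, Finset.card_univ, Fintype.card_fin, smul_eq_mul]
      rw [← Finset.mul_sum, ← sum_costs (hd a) (by omega) l]
      congr 1
      exact Fin.sum_univ_eq_sum_range (fun j => if ¬ Low k (dgN (m' + 1) (d a) (j + 1)) then
        l ^ padicValNat l (size (dgN (m' + 1) (d a) (j + 1))) else 0) _
    have h3 : ∑ s ∈ Finset.univ.filter (fun s => k < u s), l ^ padicValNat l (u s) =
        N * (∑ i ∈ Finset.Ioc k (m' + 1), l ^ padicValNat l i) +
          th * l ^ padicValNat l (m' + 1 + 1) := by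
      rw [Finset.sum_filter, Fintype.sum_sum_type, Fintype.sum_prod_type]
      congr 1
      · simp only [u, Finset.sum_const, Finset.card_univ, Fintype.card_fin, smul_eq_mul]
        rw [← Finset.mul_sum]
        congr 1
        rw [Fin.sum_univ_eq_sum_range (fun i => if k < i + 1 then l ^ padicValNat l (i + 1)
          else 0) (m' + 1), ← Finset.sum_filter]
        refine Finset.sum_bij (fun i _ => i + 1) (fun i hi => ?_) (fun a _ b _ h => by omega)
          (fun b hb => ?_) (fun _ _ => rfl)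
        · rw [Finset.mem_filter, Finset.mem_range] at hi
          rw [Finset.mem_Ioc]
          omega
        · rw [Finset.mem_Ioc] at hb
          exact ⟨b - 1, by rw [Finset.mem_filter, Finset.mem_range]; omega, by omega⟩
      · simp only [u]
        rw [if_pos (by omega)]
        simp
    rw [h3, Finset.sum_congr rfl fun a _ => h2 a]
    exact hk k (by omega)

end ZC.BDX
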