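import Mathlib

/-!
# Generating functions of lattice points (exact range, G3)

`gf u P` is the power series with the `N`-th coefficient the number of `a : ι → ℕ` with
`∑ a i * u i = N` and `P a`.
-/

set_option autoImplicit false

namespace ZC.BDX

open PowerSeries

variable {ι : Type*} [Fintype ι]

/-- the weight of an exponent vector -/
def wt (u a : ι → ℕ) : ℕ := ∑ i, a i * u i

/-- the number of exponent vectors of weight `N` with the property `P` -/
noncomputable def cnt (u : ι → ℕ) (P : (ι → ℕ) → Prop) (N : ℕ) : ℕ :=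
  Nat.card {a : ι → ℕ // wt u a = N ∧ P a}

theorem finite_wt {u : ι → ℕ} (hu : ∀ i, 0 < u i) (N : ℕ) : {a : ι → ℕ | wt u a = N}.Finite := by
  classical
  refine Set.Finite.subset (Set.finite_Iic (fun _ : ι => N)) fun a ha => Set.mem_Iic.2 fun i => ?_
  have h1 : a i * u i ≤ wt u a :=
    Finset.single_le_sum (f := fun i => a i * u i) (fun _ _ => Nat.zero_le _) (Finset.mem_univ i)
  have h2 : a i ≤ a i * u i := Nat.le_mul_of_pos_right _ (hu i)
  have ha' : wt u a = N := ha
  rw [ha'] at h1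
  exact h2.trans h1

theorem finite_cnt {u : ι → ℕ} (hu : ∀ i, 0 < u i) (P : (ι → ℕ) → Prop) (N : ℕ) :
    Finite {a : ι → ℕ // wt u a = N ∧ P a} :=
  Set.Finite.to_subtype ((finite_wt hu N).subset fun _ ha => ha.1)

/-- the generating function -/
noncomputable def gf (R : Type*) [CommRing R] (u : ι → ℕ) (P : (ι → ℕ) → Prop) : PowerSeries R :=
  PowerSeries.mk fun N => (cnt u P N : R)

variable {R : Type*} [CommRing R]

theorem cnt_congr {u : ι → ℕ} {P Q : (ι → ℕ) → Prop} (h : ∀ a, P a ↔ Q a) (N : ℕ) :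
    cnt u P N = cnt u Q N := by
  have : P = Q := funext fun a => propext (h a)
  rw [this]

theorem gf_congr {u : ι → ℕ} {P Q : (ι → ℕ) → Prop} (h : ∀ a, P a ↔ Q a) :
    gf R u P = gf R u Q := by
  have : P = Q := funext fun a => propext (h a)
  rw [this]

theorem cnt_add {u : ι → ℕ} (hu : ∀ i, 0 < u i) (P Q : (ι → ℕ) → Prop) (N : ℕ) :
    cnt u P N = cnt u (fun a => P a ∧ Q a) N + cnt u (fun a => P a ∧ ¬ Q a) N := by
  classical
  have h1 := finite_cnt hu P N
  have h2 := finite_cnt hu (fun a => P a ∧ Q a) N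
  have h3 := finite_cnt hu (fun a => P a ∧ ¬ Q a) N
  unfold cnt
  rw [← Nat.card_sum]
  refine Nat.card_congr
    { toFun := fun a => if h : Q a.1 then Sum.inl ⟨a.1, a.2.1, a.2.2, h⟩
        else Sum.inr ⟨a.1, a.2.1, a.2.2, h⟩
      invFun := fun a => match a with
        | .inl b => ⟨b.1, b.2.1, b.2.2.1⟩
        | .inr b => ⟨b.1, b.2.1, b.2.2.1⟩
      left_inv := fun a => ?_
      right_inv := fun a => ?_ }
  · by_cases h : Q a.1
    · simp [h]
    · simp [h]
  · rcases a with ⟨b, hb, hP, hQ⟩ | ⟨b, hb, hP, hQ⟩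
    · simp [hQ]
    · simp [hQ]

theorem gf_add {u : ι → ℕ} (hu : ∀ i, 0 < u i) (P Q : (ι → ℕ) → Prop) :
    gf R u P = gf R u (fun a => P a ∧ Q a) + gf R u (fun a => P a ∧ ¬ Q a) := by
  ext N
  rw [map_add, gf, gf, gf, coeff_mk, coeff_mk, coeff_mk, cnt_add hu P Q N, Nat.cast_add]

theorem wt_add_single [DecidableEq ι] (u a : ι → ℕ) (i : ι) :
    wt u (a + Pi.single i 1) = wt u a + u i := by
  unfold wt
  simp only [Pi.add_apply, add_mul, Finset.sum_add_distrib]
  congr 1
  rw [Finset.sum_eq_single i]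
  · simp
  · intro j _ hj
    simp [Pi.single_eq_of_ne hj]
  · intro h
    exact absurd (Finset.mem_univ _) h

/-- peeling off one coordinate -/
theorem cnt_peel [DecidableEq ι] {u : ι → ℕ} (hu : ∀ i, 0 < u i) {P : (ι → ℕ) → Prop} {i : ι}
    (hP : ∀ a, P (a + Pi.single i 1) ↔ P a) (N : ℕ) :
    cnt u P N = cnt u (fun a => P a ∧ a i = 0) N + if u i ≤ N then cnt u P (N - u i) else 0 := by
  rw [cnt_add hu P (fun a => a i = 0) N]
  congr 1
  split_ifs with h
  · unfold cnt
    refine Nat.card_congr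
      { toFun := fun a => ⟨a.1 - Pi.single i 1, ?_, ?_⟩
        invFun := fun a => ⟨a.1 + Pi.single i 1, ?_, (hP _).2 a.2.2, ?_⟩
        left_inv := fun a => ?_
        right_inv := fun a => ?_ }
    · have h1 : a.1 - Pi.single i 1 + Pi.single i 1 = a.1 := by
        funext j
        by_cases hj : j = i
        · subst hj
          have := a.2.2.2
          simp
          omega
        · simp [Pi.single_eq_of_ne hj]
      have h2 := wt_add_single u (a.1 - Pi.single i 1) i
      rw [h1, a.2.1] at h2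
      omega
    · have h1 : a.1 - Pi.single i 1 + Pi.single i 1 = a.1 := by
        funext j
        by_cases hj : j = i
        · subst hj
          have := a.2.2.2
          simp
          omega
        · simp [Pi.single_eq_of_ne hj]
      rw [← hP, h1]
      exact a.2.2.1
    · rw [wt_add_single, a.2.1]
      omega
    · simp
    · have h1 : a.1 - Pi.single i 1 + Pi.single i 1 = a.1 := by
        funext j
        by_cases hj : j = i
        · subst hj
          have := a.2.2.2
          simp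
          omega
        · simp [Pi.single_eq_of_ne hj]
      exact Subtype.ext h1
    · apply Subtype.ext
      funext j
      simp
  · unfold cnt
    rw [Nat.card_eq_zero]
    left
    refine ⟨fun a => h ?_⟩
    have h1 : a.1 i * u i ≤ wt u a.1 :=
      Finset.single_le_sum (f := fun i => a.1 i * u i) (fun _ _ => Nat.zero_le _)
        (Finset.mem_univ i)
    have h2 : u i ≤ a.1 i * u i := Nat.le_mul_of_pos_left _ (Nat.pos_of_ne_zero a.2.2.2)
    have := a.2.1
    omega

theorem gf_peel [DecidableEq ι] {u : ι → ℕ} (hu : ∀ i, 0 < u i) {P : (ι → ℕ) → Prop} {i : ι}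
    (hP : ∀ a, P (a + Pi.single i 1) ↔ P a) :
    (1 - X ^ u i) * gf R u P = gf R u (fun a => P a ∧ a i = 0) := by
  have h1 : gf R u P = gf R u (fun a => P a ∧ a i = 0) + X ^ u i * gf R u P := by
    ext N
    rw [map_add, coeff_X_pow_mul']
    simp only [gf, coeff_mk]
    rw [cnt_peel hu hP N]
    split_ifs with h
    · rw [Nat.cast_add]
    · rw [add_zero, add_zero]
  linear_combination h1

/-- peeling off several coordinates -/
theorem gf_peels [DecidableEq ι] {u : ι → ℕ} (hu : ∀ i, 0 < u i) {P : (ι → ℕ) → Prop}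
    (T : Finset ι) (hP : ∀ i ∈ T, ∀ a, P (a + Pi.single i 1) ↔ P a) :
    (∏ i ∈ T, (1 - X ^ u i)) * gf R u P = gf R u (fun a => P a ∧ ∀ i ∈ T, a i = 0) := by
  induction T using Finset.induction_on with
  | empty =>
    rw [Finset.prod_empty, one_mul]
    exact gf_congr fun a => by simp
  | insert i T hi ih =>
    rw [Finset.prod_insert hi, mul_assoc, ih fun j hj => hP j (Finset.mem_insert_of_mem hj),
      gf_peel hu fun a => ?_]
    · refine gf_congr fun a => ?_
      constructor
      · rintro ⟨⟨h1, h2⟩, h3⟩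
        refine ⟨h1, fun j hj => ?_⟩
        rcases Finset.mem_insert.1 hj with rfl | h4
        · exact h3
        · exact h2 j h4
      · rintro ⟨h1, h2⟩
        exact ⟨⟨h1, fun j hj => h2 j (Finset.mem_insert_of_mem hj)⟩,
          h2 i (Finset.mem_insert_self _ _)⟩
    · rw [hP i (Finset.mem_insert_self _ _)]
      refine and_congr_right fun _ => forall₂_congr fun j hj => ?_
      have hji : j ≠ i := fun h => hi (h ▸ hj)
      simp [Pi.single_eq_of_ne hji]

theorem gf_top [DecidableEq ι] {u : ι → ℕ} (hu : ∀ i, 0 < u i) :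
    (∏ i, (1 - X ^ u i)) * gf R u (fun _ => True) = 1 := by
  rw [gf_peels hu Finset.univ fun _ _ _ => Iff.rfl]
  ext N
  rw [gf, coeff_mk, coeff_one]
  have h1 : ∀ a : ι → ℕ, (wt u a = N ∧ True ∧ ∀ i ∈ Finset.univ, a i = 0) ↔ (a = 0 ∧ N = 0) := by
    intro a
    constructor
    · rintro ⟨h1, -, h2⟩
      have h3 : a = 0 := funext fun i => h2 i (Finset.mem_univ i)
      refine ⟨h3, ?_⟩
      rw [← h1, h3]
      simp [wt]
    · rintro ⟨rfl, rfl⟩
      exact ⟨by simp [wt], trivial, fun _ _ => rfl⟩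
  unfold cnt
  split_ifs with h
  · rw [Nat.card_eq_one_iff_unique.2, Nat.cast_one]
    exact ⟨⟨fun a b => Subtype.ext (((h1 a.1).1 a.2).1.trans ((h1 b.1).1 b.2).1.symm)⟩,
      ⟨⟨0, (h1 0).2 ⟨rfl, h⟩⟩⟩⟩
  · rw [Nat.card_eq_zero.2, Nat.cast_zero]
    left
    exact ⟨fun a => h ((h1 a.1).1 a.2).2⟩

/-- finitely many lattice points -/
theorem gf_pol {u : ι → ℕ} {P : (ι → ℕ) → Prop} (hP : {a | P a}.Finite) :
    ∃ p : Polynomial R, gf R u P = p := by
  obtain ⟨B, hB⟩ := (hP.image (wt u)).bddAbove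
  refine ⟨PowerSeries.trunc (B + 1) (gf R u P), ?_⟩
  ext N
  rw [Polynomial.coeff_coe, coeff_trunc]
  split_ifs with h
  · rfl
  · rw [gf, coeff_mk]
    unfold cnt
    rw [Nat.card_eq_zero.2, Nat.cast_zero]
    left
    refine ⟨fun a => h ?_⟩
    have := hB ⟨a.1, a.2.2, rfl⟩
    rw [a.2.1] at this
    omega

end ZC.BDX
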