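import Mathlib

/-!
# The degrees of the chain space (exact range): definitions

The grading group is `Fin m → ℤ`; the basis vector with index `j` is called `zt m (j + 1)`.
-/

set_option autoImplicit false

namespace ZC.BDX

/-- the degree of the coordinates of the point `z_i`, `0 < i ≤ m` (zero for other `i`) -/
def zt (m i : ℕ) : Fin m → ℤ := fun j => if (j : ℕ) + 1 = i then 1 else 0

/-- the degree of `τ_k` -/
def tt (m k : ℕ) : Fin m → ℤ := fun j => 2 * zt m k j - zt m (k - 1) j - zt m (k + 1) j

/-- the degrees of the variables: `inl s` has the degree `zt (u s)` if `u s ≤ m` and `tt m` if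
`u s = m + 1`, where `m = m' + 1`; `inr k` is the variable `τ_(k+1)`. -/
def chw {ι : Type*} (m' : ℕ) (u : ι → ℕ) : ι ⊕ Fin m' → (Fin (m' + 1) → ℤ)
  | .inl s => if u s ≤ m' + 1 then zt (m' + 1) (u s) else tt (m' + 1) (m' + 1)
  | .inr k => tt (m' + 1) (k + 1)

/-- the number of monomials of degree `d` -/
noncomputable def hcount {σ : Type*} {m : ℕ} (w : σ → (Fin m → ℤ)) (d : Fin m → ℤ) : ℕ :=
  Nat.card {a : σ →₀ ℕ // Finsupp.weight w a = d}

/-- a natural vector as an element of the grading group -/
def ofNat {m : ℕ} (c : Fin m → ℕ) : Fin m → ℤ := fun i => c i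

/-- multiplication by `1 - T ^ c` -/
def dif {A R : Type*} [Sub A] [Sub R] (c : A) (h : A → R) : A → R :=
  fun d => h d - h (d - c)

/-- the size of the degree of an equation -/
def size {m : ℕ} (c : Fin m → ℕ) : ℕ := ∑ i : Fin m, ((i : ℕ) + 1) * c i

/-- the degree `c` involves only `zt 1, …, zt k` -/
def Low {m : ℕ} (k : ℕ) (c : Fin m → ℕ) : Prop := ∀ j : Fin m, k ≤ (j : ℕ) → c j = 0

instance {m : ℕ} (k : ℕ) (c : Fin m → ℕ) : Decidable (Low k c) := Fintype.decidableForallFintype

end ZC.BDX
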