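import Pool.Agent.Helper63.BDX.Count
import Pool.Agent.Helper63.BDX.Defs

/-!
# The Hilbert function of the chain space (exact range, G3)
-/

set_option autoImplicit false

namespace ZC.BDX

open PowerSeries

/-- the pairing with the `k`-th functional -/
def lam {m : ℕ} (k : ℕ) (d : Fin m → ℤ) : ℤ := ∑ j : Fin m, (((j : ℕ) + 1 - k : ℕ) : ℤ) * d j

theorem lam_add {m : ℕ} (k : ℕ) (d d' : Fin m → ℤ) : lam k (d + d') = lam k d + lam k d' := by
  unfold lam
  rw [← Finset.sum_add_distrib]
  exact Finset.sum_congr rfl fun j _ => by rw [Pi.add_apply, mul_add]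

theorem lam_sub {m : ℕ} (k : ℕ) (d d' : Fin m → ℤ) : lam k (d - d') = lam k d - lam k d' := by
  unfold lam
  rw [← Finset.sum_sub_distrib]
  exact Finset.sum_congr rfl fun j _ => by rw [Pi.sub_apply, mul_sub]

theorem lam_smul {m : ℕ} (k : ℕ) (r : ℤ) (d : Fin m → ℤ) : lam k (r • d) = r * lam k d := by
  unfold lam
  rw [Finset.mul_sum]
  exact Finset.sum_congr rfl fun j _ => by rw [Pi.smul_apply, smul_eq_mul]; ring

theorem lam_nsmul {m : ℕ} (k : ℕ) (r : ℕ) (d : Fin m → ℤ) : lam k (r • d) = r * lam k d := by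
  rw [← natCast_zsmul, lam_smul]

theorem lam_sum {m : ℕ} (k : ℕ) {α : Type*} (s : Finset α) (f : α → Fin m → ℤ) :
    lam k (∑ a ∈ s, f a) = ∑ a ∈ s, lam k (f a) := by
  classical
  induction s using Finset.induction_on with
  | empty => simp [lam]
  | insert a s ha ih => rw [Finset.sum_insert ha, Finset.sum_insert ha, lam_add, ih]

theorem lam_zt {m : ℕ} (k i : ℕ) (hi : i ≤ m) : lam k (zt m i) = ((i - k : ℕ) : ℤ) := by
  unfold lam zt
  rcases Nat.eq_zero_or_pos i with h | h
  · subst h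
    rw [Finset.sum_eq_zero]
    · simp
    · intro j _
      rw [if_neg (by omega), mul_zero]
  · rw [Finset.sum_eq_single (⟨i - 1, by omega⟩ : Fin m)]
    · have h1 : i - 1 + 1 = i := by omega
      simp [h1]
    · intro j _ hj
      rw [if_neg, mul_zero]
      intro h1
      apply hj
      apply Fin.ext
      simp
      omega
    · intro h1
      exact absurd (Finset.mem_univ _) h1

theorem zt_of_lt {m i : ℕ} (hi : m < i) : zt m i = 0 := by
  funext j
  unfold zt
  rw [if_neg (by omega)]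
  rfl

theorem tt_eq (m k : ℕ) : tt m k = (2 : ℤ) • zt m k - zt m (k - 1) - zt m (k + 1) := by
  funext j
  simp [tt]

theorem lam_tt {m k i : ℕ} (hi : 0 < i) (him : i < m) :
    lam k (tt m i) = if i = k then -1 else 0 := by
  rw [tt_eq, lam_sub, lam_sub, lam_smul, lam_zt _ _ him.le, lam_zt _ _ (by omega),
    lam_zt _ _ (by omega)]
  split_ifs with h
  · omega
  · omega

theorem lam_tt_last {m k : ℕ} (hm : 0 < m) (hk : k < m) :
    lam k (tt m m) = ((m + 1 - k : ℕ) : ℤ) := by
  rw [tt_eq, lam_sub, lam_sub, lam_smul, lam_zt _ _ le_rfl, lam_zt _ _ (by omega),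
    zt_of_lt (Nat.lt_succ_self m)]
  have : lam k (0 : Fin m → ℤ) = 0 := by simp [lam]
  rw [this]
  omega

theorem lam_ge {m k : ℕ} (hk : m ≤ k) (d : Fin m → ℤ) : lam k d = 0 := by
  unfold lam
  refine Finset.sum_eq_zero fun j _ => ?_
  have : (j : ℕ) + 1 - k = 0 := by omega
  rw [this]
  simp

theorem lam_diff {m : ℕ} (d : Fin m → ℤ) (j : Fin m) :
    lam (j : ℕ) d - 2 * lam ((j : ℕ) + 1) d + lam ((j : ℕ) + 2) d = d j := by
  unfold lam
  rw [Finset.mul_sum, ← Finset.sum_sub_distrib, ← Finset.sum_add_distrib,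
    Finset.sum_eq_single j]
  · have h1 : (j : ℕ) + 1 - j = 1 := by omega
    have h2 : (j : ℕ) + 1 - (j + 1) = 0 := by omega
    have h3 : (j : ℕ) + 1 - (j + 2) = 0 := by omega
    rw [h1, h2, h3]
    simp
  · intro i _ hij
    have h1 : (((i : ℕ) + 1 - j : ℕ) : ℤ) - 2 * (((i : ℕ) + 1 - (j + 1) : ℕ) : ℤ) +
        (((i : ℕ) + 1 - (j + 2) : ℕ) : ℤ) = 0 := by
      have : (i : ℕ) ≠ j := fun h => hij (Fin.ext h)
      omega
    linear_combination (d i) * h1
  · intro h
    exact absurd (Finset.mem_univ _) h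

theorem eq_of_lam {m : ℕ} {d d' : Fin m → ℤ} (h : ∀ k < m, lam k d = lam k d') : d = d' := by
  have h' : ∀ k, lam k d = lam k d' := by
    intro k
    rcases lt_or_ge k m with h1 | h1
    · exact h k h1
    · rw [lam_ge h1, lam_ge h1]
  funext j
  rw [← lam_diff d j, ← lam_diff d' j, h', h', h']

section

variable {ι : Type*} [Fintype ι] {m' : ℕ} {u : ι → ℕ}

/-- the `k`-th functional on exponent vectors -/
def lev (u : ι → ℕ) (k : ℕ) (a : ι → ℕ) : ℤ := ∑ s, (a s : ℤ) * ((u s - k : ℕ) : ℤ)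

theorem lev_zero (a : ι → ℕ) : lev u 0 a = (wt u a : ℤ) := by
  unfold lev wt
  push_cast
  rfl

omit [Fintype ι] in
theorem lam_chw (hu : ∀ s, u s ≤ m' + 2) (k : ℕ) (hk : k < m' + 1) (s : ι) :
    lam k (chw m' u (.inl s)) = ((u s - k : ℕ) : ℤ) := by
  unfold chw
  simp only
  split_ifs with h
  · exact lam_zt _ _ h
  · rw [lam_tt_last (Nat.succ_pos _) hk]
    have := hu s
    have h2 : u s = m' + 2 := by omega
    rw [h2]

theorem weight_eq (x : ι ⊕ Fin m' →₀ ℕ) :
    Finsupp.weight (chw m' u) x = ∑ s, x (.inl s) • chw m' u (.inl s) +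
      ∑ k, x (.inr k) • chw m' u (.inr k) := by
  rw [Finsupp.weight_apply, Finsupp.sum_fintype _ _ (fun i => by simp), Fintype.sum_sum_type]

theorem lam_weight (hu : ∀ s, u s ≤ m' + 2) (x : ι ⊕ Fin m' →₀ ℕ) (k : ℕ) (hk : k < m' + 1) :
    lam k (Finsupp.weight (chw m' u) x) = lev u k (fun s => x (.inl s)) -
      ∑ i : Fin m', if (i : ℕ) + 1 = k then (x (.inr i) : ℤ) else 0 := by
  rw [weight_eq, lam_add, lam_sum, lam_sum, sub_eq_add_neg, ← Finset.sum_neg_distrib]
  congr 1
  · unfold lev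
    refine Finset.sum_congr rfl fun s _ => ?_
    rw [lam_nsmul, lam_chw hu k hk]
  · refine Finset.sum_congr rfl fun i _ => ?_
    rw [lam_nsmul]
    have h1 : lam k (chw m' u (.inr i)) = if (i : ℕ) + 1 = k then -1 else 0 :=
      lam_tt (Nat.succ_pos _) (by have := i.2; omega)
    rw [h1]
    split_ifs
    · ring
    · ring

/-- the exponent vectors which occur in degree `d` -/
def Adm (m' : ℕ) (u : ι → ℕ) (d : Fin (m' + 1) → ℤ) (a : ι → ℕ) : Prop :=
  ∀ k, 0 < k → k < m' + 1 → lam k d ≤ lev u k a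

theorem weight_iff (hu : ∀ s, u s ≤ m' + 2) (x : ι ⊕ Fin m' →₀ ℕ) (d : Fin (m' + 1) → ℤ) :
    Finsupp.weight (chw m' u) x = d ↔ lev u 0 (fun s => x (.inl s)) = lam 0 d ∧
      ∀ i : Fin m', (x (.inr i) : ℤ) = lev u ((i : ℕ) + 1) (fun s => x (.inl s)) -
        lam ((i : ℕ) + 1) d := by
  have h0 : ∀ k : ℕ, (∑ i : Fin m', if (i : ℕ) + 1 = k then (x (.inr i) : ℤ) else 0) =
      if h : 0 < k ∧ k < m' + 1 then (x (.inr ⟨k - 1, by omega⟩) : ℤ) else 0 := by
    intro k
    split_ifs with h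
    · rw [Finset.sum_eq_single (⟨k - 1, by omega⟩ : Fin m')]
      · rw [if_pos]
        simp
        omega
      · intro j _ hj
        rw [if_neg]
        intro h1
        apply hj
        apply Fin.ext
        simp
        omega
      · intro h1
        exact absurd (Finset.mem_univ _) h1
    · refine Finset.sum_eq_zero fun j _ => if_neg ?_
      have := j.2
      omega
  constructor
  · intro h
    refine ⟨?_, fun i => ?_⟩
    · have h1 := lam_weight hu x 0 (Nat.succ_pos _)
      rw [h, h0, dif_neg (by omega)] at h1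
      linarith
    · have h1 := lam_weight hu x ((i : ℕ) + 1) (by have := i.2; omega)
      rw [h, h0, dif_pos ⟨Nat.succ_pos _, by have := i.2; omega⟩] at h1
      have h2 : (⟨(i : ℕ) + 1 - 1, by have := i.2; omega⟩ : Fin m') = i := Fin.ext (by simp)
      rw [h2] at h1
      linarith
  · rintro ⟨h1, h2⟩
    refine eq_of_lam fun k hk => ?_
    rw [lam_weight hu x k hk, h0]
    split_ifs with h
    · have h3 := h2 ⟨k - 1, by omega⟩
      have h4 : k - 1 + 1 = k := by omega
      simp only [h4] at h3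
      rw [h3]
      ring
    · have : k = 0 := by omega
      subst this
      rw [h1, sub_zero]

/-- the number of monomials of degree `d` is a number of exponent vectors -/
theorem hcount_eq (hu : ∀ s, u s ≤ m' + 2) (d : Fin (m' + 1) → ℤ) (N : ℕ)
    (hd : lam 0 d = N) : hcount (chw m' u) d = cnt u (Adm m' u d) N := by
  classical
  unfold hcount cnt
  refine Nat.card_congr
    { toFun := fun x => ⟨fun s => x.1 (.inl s), ?_, ?_⟩
      invFun := fun a => ⟨Finsupp.equivFunOnFinite.symm (Sum.elim a.1 fun i =>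
        (lev u ((i : ℕ) + 1) a.1 - lam ((i : ℕ) + 1) d).toNat), ?_⟩
      left_inv := fun x => ?_
      right_inv := fun a => ?_ }
  · have h1 := ((weight_iff hu x.1 d).1 x.2).1
    rw [lev_zero, hd] at h1
    exact_mod_cast h1
  · intro k hk0 hk
    have h1 := ((weight_iff hu x.1 d).1 x.2).2 ⟨k - 1, by omega⟩
    have h4 : k - 1 + 1 = k := by omega
    simp only [h4] at h1
    have h2 : (0 : ℤ) ≤ (x.1 (.inr ⟨k - 1, by omega⟩) : ℤ) := Int.natCast_nonneg _
    linarith
  · rw [weight_iff hu]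
    refine ⟨?_, fun i => ?_⟩
    · simp only [Finsupp.equivFunOnFinite_symm_apply_apply, Sum.elim_inl]
      rw [lev_zero, hd]
      exact_mod_cast a.2.1
    · simp only [Finsupp.equivFunOnFinite_symm_apply_apply, Sum.elim_inl, Sum.elim_inr]
      rw [Int.toNat_of_nonneg]
      have := a.2.2 ((i : ℕ) + 1) (Nat.succ_pos _) (by have := i.2; omega)
      linarith
  · apply Subtype.ext
    ext s
    rcases s with s | i
    · simp
    · have h1 := ((weight_iff hu x.1 d).1 x.2).2 i
      simp only [Finsupp.equivFunOnFinite_symm_apply_apply, Sum.elim_inr]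
      rw [← h1]
      simp
  · apply Subtype.ext
    funext s
    simp

theorem hcount_neg (hu : ∀ s, u s ≤ m' + 2) (d : Fin (m' + 1) → ℤ)
    (hd : lam 0 d < 0) : hcount (chw m' u) d = 0 := by
  unfold hcount
  rw [Nat.card_eq_zero]
  left
  refine ⟨fun x => ?_⟩
  have h1 := ((weight_iff hu x.1 d).1 x.2).1
  rw [lev_zero] at h1
  have h2 : (0 : ℤ) ≤ (wt u (fun s => x.1 (.inl s)) : ℤ) := Int.natCast_nonneg _
  linarith

/-- the series of a function on the grading group -/
noncomputable def gen {R : Type*} [CommRing R] (h : (Fin (m' + 1) → ℤ) → R)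
    (d : Fin (m' + 1) → ℤ) : PowerSeries R :=
  PowerSeries.mk fun N => h (d + ((N : ℤ) - lam 0 d) • zt (m' + 1) 1)

theorem gen_hcount {R : Type*} [CommRing R] (hu : ∀ s, u s ≤ m' + 2) (d : Fin (m' + 1) → ℤ) :
    gen (fun d => (hcount (chw m' u) d : R)) d = gf R u (Adm m' u d) := by
  ext N
  have h1 : ∀ k, lam k (d + ((N : ℤ) - lam 0 d) • zt (m' + 1) 1) =
      lam k d + ((N : ℤ) - lam 0 d) * ((1 - k : ℕ) : ℤ) := by
    intro k
    rw [lam_add, lam_smul, lam_zt _ _ (by omega)]
  rw [gen, gf, coeff_mk, coeff_mk, hcount_eq hu _ N]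
  · have : Adm m' u (d + ((N : ℤ) - lam 0 d) • zt (m' + 1) 1) = Adm m' u d := by
      funext a
      unfold Adm
      apply propext
      refine forall_congr' fun k => imp_congr_right fun hk => ?_
      rw [h1 k]
      have : 1 - k = 0 := by omega
      rw [this]
      simp
    rw [this]
  · rw [h1 0]
    simp

/-- the conditions of index `> k` -/
def PP (m' : ℕ) (u : ι → ℕ) (k : ℕ) (d : Fin (m' + 1) → ℤ) (a : ι → ℕ) : Prop :=
  ∀ k', k < k' → k' < m' + 1 → lam k' d ≤ lev u k' a

theorem gf_split {R : Type*} [CommRing R] (hu : ∀ s, 0 < u s) (d : Fin (m' + 1) → ℤ) (k : ℕ)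
    (hk : k < m') :
    gf R u (PP m' u (k + 1) d) = gf R u (PP m' u k d) +
      gf R u (fun a => PP m' u (k + 1) d a ∧ ¬ lam (k + 1) d ≤ lev u (k + 1) a) := by
  rw [gf_add hu (PP m' u (k + 1) d) (fun a => lam (k + 1) d ≤ lev u (k + 1) a)]
  congr 1
  refine gf_congr fun a => ?_
  constructor
  · rintro ⟨h1, h2⟩ k' hk' hk2
    rcases Nat.lt_or_ge (k + 1) k' with h3 | h3
    · exact h1 k' h3 hk2
    · have : k' = k + 1 := by omega
      rw [this]
      exact h2
  · intro h
    exact ⟨fun k' hk' hk2 => h k' (by omega) hk2, h (k + 1) (by omega) (by omega)⟩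

/-- the part of index `k` (violated condition of index `k`, the variables of level `≤ k` removed) -/
def QQ (m' : ℕ) (u : ι → ℕ) (k : ℕ) (d : Fin (m' + 1) → ℤ) (a : ι → ℕ) : Prop :=
  (PP m' u k d a ∧ ¬ lam k d ≤ lev u k a) ∧ ∀ s ∈ Finset.univ.filter (fun s => u s ≤ k), a s = 0

theorem finite_QQ (k : ℕ) (d : Fin (m' + 1) → ℤ) : {a | QQ m' u k d a}.Finite := by
  classical
  refine Set.Finite.subset (Set.finite_Iic (fun _ : ι => (lam k d).toNat)) fun a ha =>
    Set.mem_Iic.2 fun s => ?_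
  obtain ⟨⟨-, h1⟩, h2⟩ := ha
  by_cases h3 : u s ≤ k
  · rw [h2 s (by simpa using h3)]
    exact Nat.zero_le _
  · have h4 : (a s : ℤ) * ((u s - k : ℕ) : ℤ) ≤ lev u k a :=
      Finset.single_le_sum (f := fun s => (a s : ℤ) * ((u s - k : ℕ) : ℤ))
        (fun _ _ => mul_nonneg (Int.natCast_nonneg _) (Int.natCast_nonneg _)) (Finset.mem_univ s)
    have h5 : (1 : ℤ) ≤ ((u s - k : ℕ) : ℤ) := by
      have : 1 ≤ u s - k := by omega
      exact_mod_cast this
    have h6 : (a s : ℤ) ≤ (a s : ℤ) * ((u s - k : ℕ) : ℤ) :=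
      le_mul_of_one_le_right (Int.natCast_nonneg _) h5
    have h7 : (a s : ℤ) ≤ lam k d := by
      push Not at h1
      linarith
    exact (Int.le_toNat ((Int.natCast_nonneg _).trans h7)).2 h7

theorem lam_congr {m k : ℕ} {d d' : Fin m → ℤ} (h : ∀ j : Fin m, k ≤ (j : ℕ) → d j = d' j)
    (k' : ℕ) (hk : k ≤ k') : lam k' d = lam k' d' := by
  unfold lam
  refine Finset.sum_congr rfl fun j _ => ?_
  rcases Nat.lt_or_ge (j : ℕ) k with h1 | h1
  · have : (j : ℕ) + 1 - k' = 0 := by omega
    rw [this]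
    simp
  · rw [h j h1]

theorem QQ_congr {k : ℕ} {d d' : Fin (m' + 1) → ℤ}
    (h : ∀ j : Fin (m' + 1), k ≤ (j : ℕ) → d j = d' j) : QQ m' u k d = QQ m' u k d' := by
  funext a
  unfold QQ PP
  rw [lam_congr h k le_rfl]
  apply propext
  refine and_congr_left fun _ => and_congr_left fun _ => forall_congr' fun k' =>
    imp_congr_right fun hk' => ?_
  rw [lam_congr h k' hk'.le]

theorem lev_add_single [DecidableEq ι] (k : ℕ) (a : ι → ℕ) (s : ι) (hs : u s ≤ k) :
    lev u k (a + Pi.single s 1) = lev u k a := by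
  unfold lev
  refine Finset.sum_congr rfl fun t _ => ?_
  by_cases h : t = s
  · subst h
    have : u t - k = 0 := by omega
    rw [this]
    simp
  · simp [Pi.single_eq_of_ne h]

/-- the product over the variables of level `> k` -/
noncomputable def RR (R : Type*) [CommRing R] (u : ι → ℕ) (k : ℕ) : PowerSeries R :=
  ∏ s ∈ Finset.univ.filter (fun s => k < u s), (1 - X ^ u s)

theorem mul_gf_QQ {R : Type*} [CommRing R] (hu : ∀ s, 0 < u s) (k : ℕ) (d : Fin (m' + 1) → ℤ) :
    RR R u 0 * gf R u (fun a => PP m' u k d a ∧ ¬ lam k d ≤ lev u k a) =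
      RR R u k * gf R u (QQ m' u k d) := by
  classical
  have h1 := gf_peels (R := R) hu (P := fun a => PP m' u k d a ∧ ¬ lam k d ≤ lev u k a)
    (Finset.univ.filter (fun s => u s ≤ k)) (by
      intro s hs a
      have hs' : u s ≤ k := by simpa using hs
      unfold PP
      rw [lev_add_single k a s hs']
      refine and_congr_left fun _ => forall_congr' fun k' => imp_congr_right fun hk' => ?_
      rw [lev_add_single k' a s (by omega)])
  have h2 : RR R u 0 = RR R u k * ∏ s ∈ Finset.univ.filter (fun s => u s ≤ k), (1 - X ^ u s) := by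
    unfold RR
    rw [Finset.filter_true_of_mem (fun s _ => hu s)]
    have h3 := Finset.prod_filter_mul_prod_filter_not Finset.univ (fun s => k < u s)
      (fun s => (1 - X ^ u s : PowerSeries R))
    simp only [not_lt] at h3
    exact h3.symm
  rw [h2, mul_assoc, h1]
  rfl

/-- **The identity.** -/
theorem mul_gf_Adm {R : Type*} [CommRing R] (hu : ∀ s, 0 < u s) (d : Fin (m' + 1) → ℤ) :
    RR R u 0 * gf R u (Adm m' u d) =
      1 - ∑ k ∈ Finset.range m', RR R u (k + 1) * gf R u (QQ m' u (k + 1) d) := by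
  classical
  have h1 : ∀ j ≤ m', gf R u (PP m' u 0 d) = gf R u (PP m' u j d) -
      ∑ k ∈ Finset.range j,
        gf R u (fun a => PP m' u (k + 1) d a ∧ ¬ lam (k + 1) d ≤ lev u (k + 1) a) := by
    intro j
    induction j with
    | zero => intro _; simp
    | succ j ih =>
      intro hj
      rw [ih (by omega), Finset.sum_range_succ, gf_split hu d j (by omega)]
      ring
  have h2 : gf R u (Adm m' u d) = gf R u (PP m' u 0 d) := rfl
  have h3 : RR R u 0 * gf R u (PP m' u m' d) = 1 := by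
    rw [← gf_top (R := R) hu]
    unfold RR
    rw [Finset.filter_true_of_mem (fun s _ => hu s)]
    congr 1
    refine gf_congr fun a => ?_
    simp only [iff_true]
    intro k' h4 h5
    omega
  rw [h2, h1 m' le_rfl, mul_sub, h3, Finset.mul_sum]
  congr 1
  refine Finset.sum_congr rfl fun k _ => ?_
  exact mul_gf_QQ hu (k + 1) d

end

end ZC.BDX
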