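import Pool.Agent.Helper63.BDX.Ident

/-!
# Poles at `V = 1` (exact range, G3)
-/

set_option autoImplicit false

namespace ZC.BDX

open PowerSeries

section poles

variable {l : ℕ}

/-- Power series which are polynomials. -/
def IsPol (s : PowerSeries (ZMod l)) : Prop := ∃ p : Polynomial (ZMod l), s = p

theorem IsPol.add {s t : PowerSeries (ZMod l)} (hs : IsPol s) (ht : IsPol t) :
    IsPol (s + t) := by
  obtain ⟨p, rfl⟩ := hs
  obtain ⟨q, rfl⟩ := ht
  exact ⟨p + q, by rw [Polynomial.coe_add]⟩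

theorem IsPol.mul {s t : PowerSeries (ZMod l)} (hs : IsPol s) (ht : IsPol t) :
    IsPol (s * t) := by
  obtain ⟨p, rfl⟩ := hs
  obtain ⟨q, rfl⟩ := ht
  exact ⟨p * q, by rw [Polynomial.coe_mul]⟩

theorem isPol_of_eventually {s : PowerSeries (ZMod l)}
    (h : ∀ᶠ n in Filter.atTop, PowerSeries.coeff n s = 0) : IsPol s := by
  obtain ⟨m, hm⟩ := Filter.eventually_atTop.1 h
  refine ⟨PowerSeries.trunc m s, ?_⟩
  ext n
  rw [Polynomial.coeff_coe, PowerSeries.coeff_trunc]
  split_ifs with hn
  · rfl
  · exact hm n (not_lt.1 hn)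

/-- `s` is the product of `(1 - X) ^ n` and a polynomial which does not vanish at `1` -/
def Ord (n : ℕ) (s : PowerSeries (ZMod l)) : Prop :=
  ∃ p : Polynomial (ZMod l), s = (((1 - Polynomial.X) ^ n * p : Polynomial (ZMod l)) :
    PowerSeries (ZMod l)) ∧ p.eval 1 ≠ 0

/-- `s` is the product of `(1 - X) ^ n` and a polynomial -/
def Dv (n : ℕ) (s : PowerSeries (ZMod l)) : Prop :=
  ∃ p : Polynomial (ZMod l), s = (((1 - Polynomial.X) ^ n * p : Polynomial (ZMod l)) :
    PowerSeries (ZMod l))

theorem Ord.mul [Fact l.Prime] {n n' : ℕ} {s t : PowerSeries (ZMod l)} (hs : Ord n s)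
    (ht : Ord n' t) : Ord (n + n') (s * t) := by
  obtain ⟨p, rfl, hp⟩ := hs
  obtain ⟨q, rfl, hq⟩ := ht
  refine ⟨p * q, ?_, ?_⟩
  · rw [← Polynomial.coe_mul]
    congr 1
    ring
  · rw [Polynomial.eval_mul]
    exact mul_ne_zero hp hq

theorem ord_one [Fact l.Prime] : Ord 0 (1 : PowerSeries (ZMod l)) :=
  ⟨1, by simp, by simp⟩

theorem Ord.dv {n n' : ℕ} (h : n' ≤ n) {s : PowerSeries (ZMod l)} (hs : Ord n s) : Dv n' s := by
  obtain ⟨p, rfl, -⟩ := hs
  refine ⟨(1 - Polynomial.X) ^ (n - n') * p, ?_⟩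
  congr 1
  rw [← mul_assoc, ← pow_add]
  congr 2
  omega

theorem Dv.mul {n : ℕ} {s t : PowerSeries (ZMod l)} (hs : Dv n s) (ht : IsPol t) :
    Dv n (s * t) := by
  obtain ⟨p, rfl⟩ := hs
  obtain ⟨q, rfl⟩ := ht
  refine ⟨p * q, ?_⟩
  rw [← Polynomial.coe_mul]
  congr 1
  ring

theorem Dv.add {n : ℕ} {s t : PowerSeries (ZMod l)} (hs : Dv n s) (ht : Dv n t) :
    Dv n (s + t) := by
  obtain ⟨p, rfl⟩ := hs
  obtain ⟨q, rfl⟩ := ht
  refine ⟨p + q, ?_⟩
  rw [← Polynomial.coe_add]
  congr 1
  ring

theorem Dv.sum {n : ℕ} {α : Type*} (A : Finset α) {s : α → PowerSeries (ZMod l)}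
    (hs : ∀ a ∈ A, Dv n (s a)) : Dv n (∑ a ∈ A, s a) := by
  classical
  induction A using Finset.induction_on with
  | empty => exact ⟨0, by simp⟩
  | insert a A ha ih =>
    rw [Finset.sum_insert ha]
    exact (hs a (Finset.mem_insert_self _ _)).add
      (ih fun b hb => hs b (Finset.mem_insert_of_mem hb))

theorem Ord.not_dv {n : ℕ} {s : PowerSeries (ZMod l)} (hs : Ord n s) : ¬ Dv (n + 1) s := by
  obtain ⟨p, rfl, hp⟩ := hs
  rintro ⟨q, hq⟩
  have h1 := Polynomial.coe_injective _ hq
  rw [pow_succ, mul_assoc] at h1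
  have h2 : ((1 - Polynomial.X) ^ n : Polynomial (ZMod l)) ∈
      nonZeroDivisors (Polynomial (ZMod l)) := by
    refine pow_mem ?_ n
    have h3 : (1 - Polynomial.X : Polynomial (ZMod l)) = -(Polynomial.X - Polynomial.C 1) := by
      simp
    rw [h3]
    have h4 := (Polynomial.monic_X_sub_C (1 : ZMod l)).mem_nonZeroDivisors
    rw [mem_nonZeroDivisors_iff_right] at h4 ⊢
    intro x hx
    refine h4 x ?_
    rw [mul_neg, neg_eq_zero] at hx
    exact hx
  have h5 := (mul_cancel_left_mem_nonZeroDivisors h2).1 h1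
  apply hp
  rw [h5]
  simp

theorem ord_one_sub [hl : Fact l.Prime] {c : ℕ} (hc : 0 < c) :
    Ord (l ^ padicValNat l c) (1 - X ^ c : PowerSeries (ZMod l)) := by
  obtain ⟨m, hm, hcm⟩ : ∃ m, ¬ l ∣ m ∧ c = m * l ^ padicValNat l c := by
    obtain ⟨m, hm⟩ := pow_padicValNat_dvd (p := l) (n := c)
    refine ⟨m, fun h => ?_, by rw [mul_comm]; exact hm⟩
    have h2 : l ^ (padicValNat l c + 1) ∣ c := by
      obtain ⟨k, rfl⟩ := h
      refine ⟨k, ?_⟩
      rw [pow_succ]
      linarith [hm]
    exact pow_succ_padicValNat_not_dvd hc.ne' h2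
  have hm0 : (m : ZMod l) ≠ 0 := fun h => hm ((ZMod.natCast_eq_zero_iff _ _).1 h)
  refine ⟨(∑ i ∈ Finset.range m, Polynomial.X ^ i) ^ l ^ padicValNat l c, ?_, ?_⟩
  · have h1 : (1 - Polynomial.X : Polynomial (ZMod l)) * ∑ i ∈ Finset.range m, Polynomial.X ^ i =
        1 - Polynomial.X ^ m := by
      rw [mul_comm]
      exact geom_sum_mul_neg _ _
    rw [← mul_pow, h1, sub_pow_char_pow, one_pow, ← pow_mul, ← hcm]
    simp
  · rw [Polynomial.eval_pow, Polynomial.eval_finsetSum]
    simp [hm0]

theorem ord_prod [Fact l.Prime] {α : Type*} (A : Finset α) {c : α → ℕ}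
    (hc : ∀ a ∈ A, 0 < c a) :
    Ord (∑ a ∈ A, l ^ padicValNat l (c a)) (∏ a ∈ A, (1 - X ^ c a) : PowerSeries (ZMod l)) := by
  classical
  induction A using Finset.induction_on with
  | empty => simpa using ord_one
  | insert a A ha ih =>
    rw [Finset.prod_insert ha, Finset.sum_insert ha]
    exact (ord_one_sub (hc a (Finset.mem_insert_self _ _))).mul
      (ih fun b hb => hc b (Finset.mem_insert_of_mem hb))

theorem ord_list [Fact l.Prime] {α : Type*} (A : List α) {c : α → ℕ}
    (hc : ∀ a ∈ A, 0 < c a) :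
    Ord ((A.map fun a => l ^ padicValNat l (c a)).sum)
      ((A.map fun a => (1 - X ^ c a : PowerSeries (ZMod l))).prod) := by
  induction A with
  | nil => simpa using ord_one
  | cons a A ih =>
    simp only [List.map_cons, List.sum_cons, List.prod_cons]
    exact (ord_one_sub (hc a List.mem_cons_self)).mul
      (ih fun b hb => hc b (List.mem_cons_of_mem _ hb))

end poles

section operators

variable {l m' : ℕ}

/-- multiplication by `1 - T ^ c` on series -/
noncomputable def tw {R : Type*} [CommRing R] (c : Fin (m' + 1) → ℕ)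
    (G : (Fin (m' + 1) → ℤ) → PowerSeries R) : (Fin (m' + 1) → ℤ) → PowerSeries R :=
  fun d => G d - X ^ size c * G (d - ofNat c)

theorem lam_ofNat {m : ℕ} (c : Fin m → ℕ) : lam 0 (ofNat c) = size c := by
  unfold lam ofNat size
  push_cast
  refine Finset.sum_congr rfl fun j _ => ?_
  simp

/-- the shape of the series -/
def Good (b : PowerSeries (ZMod l)) (Q : ℕ → PowerSeries (ZMod l))
    (G : (Fin (m' + 1) → ℤ) → PowerSeries (ZMod l)) : Prop :=
  ∃ F : ℕ → (Fin (m' + 1) → ℤ) → PowerSeries (ZMod l), (∀ k d, IsPol (F k d)) ∧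
    (∀ k d d', (∀ j : Fin (m' + 1), k ≤ (j : ℕ) → d j = d' j) → F k d = F k d') ∧
    ∀ d, G d = b - ∑ k ∈ Finset.range m', Q (k + 1) * F (k + 1) d

theorem Good.step {b : PowerSeries (ZMod l)} {Q : ℕ → PowerSeries (ZMod l)}
    {G : (Fin (m' + 1) → ℤ) → PowerSeries (ZMod l)} (h : Good b Q G) (c : Fin (m' + 1) → ℕ) :
    Good ((1 - X ^ size c) * b) (fun k => if Low k c then (1 - X ^ size c) * Q k else Q k)
      (tw c G) := by
  obtain ⟨F, hF1, hF2, hF3⟩ := h
  refine ⟨fun k => if Low k c then F k else tw c (F k), fun k d => ?_, fun k d d' hd => ?_,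
    fun d => ?_⟩
  · simp only
    split_ifs with h
    · exact hF1 k d
    · unfold tw
      rw [sub_eq_add_neg, ← neg_mul]
      refine (hF1 k d).add (IsPol.mul ?_ (hF1 k _))
      exact ⟨-Polynomial.X ^ size c, by simp⟩
  · simp only
    split_ifs with h
    · exact hF2 k d d' hd
    · unfold tw
      rw [hF2 k d d' hd, hF2 k (d - ofNat c) (d' - ofNat c) fun j hj => by
        rw [Pi.sub_apply, Pi.sub_apply, hd j hj]]
  · unfold tw
    rw [hF3 d, hF3 (d - ofNat c), mul_sub, Finset.mul_sum, sub_sub_sub_comm,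
      ← Finset.sum_sub_distrib]
    have h1 : b - X ^ size c * b = (1 - X ^ size c) * b := by ring
    rw [h1]
    congr 1
    refine Finset.sum_congr rfl fun k _ => ?_
    simp only
    split_ifs with h
    · have h2 : F (k + 1) (d - ofNat c) = F (k + 1) d := by
        refine hF2 (k + 1) _ _ fun j hj => ?_
        have := h j hj
        simp [ofNat, this]
      rw [h2]
      ring
    · simp only
      ring

theorem Good.fold {b : PowerSeries (ZMod l)} {Q : ℕ → PowerSeries (ZMod l)}
    {G : (Fin (m' + 1) → ℤ) → PowerSeries (ZMod l)} (h : Good b Q G)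
    (L : List (Fin (m' + 1) → ℕ)) :
    Good ((L.map fun c => (1 - X ^ size c : PowerSeries (ZMod l))).prod * b)
      (fun k => ((L.filter fun c => Low k c).map
        fun c => (1 - X ^ size c : PowerSeries (ZMod l))).prod * Q k) (L.foldr tw G) := by
  induction L with
  | nil => simpa using h
  | cons c L ih =>
    have h1 := ih.step c
    rw [List.map_cons, List.prod_cons, mul_assoc, List.foldr_cons]
    have h2 : (fun k => ((List.filter (fun c => decide (Low k c)) (c :: L)).map
        fun c => (1 - X ^ size c : PowerSeries (ZMod l))).prod * Q k) =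
        fun k => if Low k c then (1 - X ^ size c) *
          (((L.filter fun c => Low k c).map
            fun c => (1 - X ^ size c : PowerSeries (ZMod l))).prod * Q k)
          else ((L.filter fun c => Low k c).map
            fun c => (1 - X ^ size c : PowerSeries (ZMod l))).prod * Q k := by
      funext k
      split_ifs with h
      · rw [List.filter_cons_of_pos (by simpa using h), List.map_cons, List.prod_cons, mul_assoc]
      · rw [List.filter_cons_of_neg (by simpa using h)]
    rw [h2]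
    exact h1

/-- functions vanishing in negative degrees -/
def Supp {R : Type*} [Zero R] (h : (Fin (m' + 1) → ℤ) → R) : Prop := ∀ d, lam 0 d < 0 → h d = 0

theorem Supp.dif {R : Type*} [Ring R] {h : (Fin (m' + 1) → ℤ) → R} (hh : Supp h)
    (c : Fin (m' + 1) → ℕ) : Supp (dif (ofNat c) h) := by
  intro d hd
  unfold BDX.dif
  rw [hh d hd, hh (d - ofNat c), sub_zero]
  rw [lam_sub, lam_ofNat]
  have : (0 : ℤ) ≤ (size c : ℤ) := Int.natCast_nonneg _
  linarith

theorem Supp.fold {R : Type*} [Ring R] {h : (Fin (m' + 1) → ℤ) → R} (hh : Supp h)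
    (L : List (Fin (m' + 1) → ℕ)) : Supp ((L.map ofNat).foldr BDX.dif h) := by
  induction L with
  | nil => exact hh
  | cons c L ih => exact ih.dif c

theorem gen_dif {R : Type*} [CommRing R] {h : (Fin (m' + 1) → ℤ) → R} (hh : Supp h)
    (c : Fin (m' + 1) → ℕ) : gen (dif (ofNat c) h) = tw c (gen h) := by
  funext d
  ext N
  unfold tw gen
  rw [map_sub, coeff_X_pow_mul', coeff_mk, coeff_mk, dif]
  congr 1
  have h1 : lam 0 (d - ofNat c) = lam 0 d - size c := by rw [lam_sub, lam_ofNat]
  split_ifs with h2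
  · rw [coeff_mk, h1]
    congr 1
    have h3 : ((N - size c : ℕ) : ℤ) - (lam 0 d - size c) = (N : ℤ) - lam 0 d := by
      push_cast [h2]
      ring
    rw [h3]
    abel
  · apply hh
    have h3 : d + ((N : ℤ) - lam 0 d) • zt (m' + 1) 1 - ofNat c =
        (d - ofNat c) + ((N : ℤ) - lam 0 d) • zt (m' + 1) 1 := by abel
    rw [h3, lam_add, lam_smul, lam_zt _ _ (by omega), h1]
    push_cast
    have h4 : (N : ℤ) < size c := by exact_mod_cast not_le.1 h2
    linarith

theorem gen_fold {R : Type*} [CommRing R] {h : (Fin (m' + 1) → ℤ) → R} (hh : Supp h)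
    (L : List (Fin (m' + 1) → ℕ)) :
    gen ((L.map ofNat).foldr dif h) = L.foldr tw (gen h) := by
  induction L with
  | nil => rfl
  | cons c L ih =>
    rw [List.map_cons, List.foldr_cons, List.foldr_cons, gen_dif (hh.fold L) c, ih]

theorem tw_mul {R : Type*} [CommRing R] (c : Fin (m' + 1) → ℕ) (D : PowerSeries R)
    (G : (Fin (m' + 1) → ℤ) → PowerSeries R) :
    tw c (fun d => D * G d) = fun d => D * tw c G d := by
  funext d
  unfold tw
  ring

theorem fold_mul {R : Type*} [CommRing R] (D : PowerSeries R)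
    (G : (Fin (m' + 1) → ℤ) → PowerSeries R) (L : List (Fin (m' + 1) → ℕ)) :
    L.foldr tw (fun d => D * G d) = fun d => D * L.foldr tw G d := by
  induction L with
  | nil => rfl
  | cons c L ih => rw [List.foldr_cons, ih, tw_mul, List.foldr_cons]

theorem size_pos {m : ℕ} {c : Fin m → ℕ} (hc : c ≠ 0) : 0 < size c := by
  obtain ⟨j, hj⟩ := Function.ne_iff.1 hc
  unfold size
  refine Finset.sum_pos' (fun _ _ => Nat.zero_le _) ⟨j, Finset.mem_univ _, ?_⟩
  exact Nat.mul_pos (Nat.succ_pos _) (Nat.pos_of_ne_zero hj)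

end operators

section main

variable {l m' : ℕ} {ι : Type*} [Fintype ι]

/-- **The nonvanishing.** -/
theorem nonvanishing (hl : l.Prime) {u : ι → ℕ} (hu0 : ∀ s, 0 < u s) (hu : ∀ s, u s ≤ m' + 2)
    (L : List (Fin (m' + 1) → ℕ)) (hL : ∀ c ∈ L, c ≠ 0)
    (hk : ∀ k ≤ m', ((L.filter fun c => ¬ Low k c).map fun c => l ^ padicValNat l (size c)).sum <
      ∑ s ∈ Finset.univ.filter (fun s => k < u s), l ^ padicValNat l (u s)) (C : ℤ) :
    ∃ d : Fin (m' + 1) → ℤ, (∀ i, C ≤ d i) ∧
      ((L.map ofNat).foldr dif fun d => (hcount (chw m' u) d : ZMod l)) d ≠ 0 := by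
  classical
  have : Fact l.Prime := ⟨hl⟩
  by_contra hcon
  push Not at hcon
  set h : (Fin (m' + 1) → ℤ) → ZMod l := fun d => (hcount (chw m' u) d : ZMod l) with hh
  have hsupp : Supp h := fun d hd => by
    rw [hh]
    simp only
    rw [hcount_neg hu d hd, Nat.cast_zero]
  have hgood : Good (l := l) 1 (RR (ZMod l) u) (fun d => RR (ZMod l) u 0 * gen h d) := by
    refine ⟨fun k d => gf (ZMod l) u (QQ m' u k d), fun k d => gf_pol (finite_QQ k d),
      fun k d d' hd => by simp only [QQ_congr hd], fun d => ?_⟩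
    simp only
    rw [hh, gen_hcount hu, mul_gf_Adm hu0]
  have h1 := hgood.fold L
  rw [fold_mul, ← gen_fold hsupp, mul_one] at h1
  obtain ⟨F, hF1, -, hF3⟩ := h1
  set d₀ : Fin (m' + 1) → ℤ := fun _ => C with hd₀
  have h2 := hF3 d₀
  simp only at h2
  have hpol : IsPol (gen ((L.map ofNat).foldr dif h) d₀) := by
    refine isPol_of_eventually (Filter.eventually_atTop.2 ⟨(lam 0 d₀).toNat, fun N hN => ?_⟩)
    rw [gen, coeff_mk]
    refine hcon _ fun i => ?_
    have h3 : lam 0 d₀ ≤ N := (Int.self_le_toNat _).trans (by exact_mod_cast hN)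
    have h4 : (0 : ℤ) ≤ zt (m' + 1) 1 i := by
      unfold zt
      split_ifs <;> simp
    have h5 := mul_nonneg (sub_nonneg.2 h3) h4
    change C ≤ C + ((N : ℤ) - lam 0 d₀) * zt (m' + 1) 1 i
    linarith
  set ρ := (L.map fun c => l ^ padicValNat l (size c)).sum with hρ
  have hb : Ord ρ ((L.map fun c => (1 - X ^ size c : PowerSeries (ZMod l))).prod) :=
    ord_list L fun c hc => size_pos (hL c hc)
  have hR : ∀ k, Ord (∑ s ∈ Finset.univ.filter (fun s => k < u s), l ^ padicValNat l (u s))
      (RR (ZMod l) u k) := fun k => ord_prod _ fun s _ => hu0 s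
  have hLk : ∀ k, Ord (((L.filter fun c => Low k c).map
      fun c => l ^ padicValNat l (size c)).sum)
      (((L.filter fun c => Low k c).map
        fun c => (1 - X ^ size c : PowerSeries (ZMod l))).prod) := fun k =>
    ord_list _ fun c hc => size_pos (hL c (List.mem_of_mem_filter hc))
  have hsum : ∀ k, ρ = ((L.filter fun c => Low k c).map
      fun c => l ^ padicValNat l (size c)).sum + ((L.filter fun c => ¬ Low k c).map
      fun c => l ^ padicValNat l (size c)).sum := by
    intro k
    rw [hρ]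
    clear_value ρ
    clear hρ hb hF3 h2 hpol hL hk hcon hLk
    induction L with
    | nil => simp
    | cons c L ih =>
      rw [List.map_cons, List.sum_cons, ih]
      by_cases h : Low k c
      · rw [List.filter_cons_of_pos (by simpa using h), List.filter_cons_of_neg (by simpa using h),
          List.map_cons, List.sum_cons]
        ring
      · rw [List.filter_cons_of_neg (by simpa using h), List.filter_cons_of_pos (by simpa using h),
          List.map_cons, List.sum_cons]
        ring
  have hdv : Dv (ρ + 1) ((L.map fun c => (1 - X ^ size c : PowerSeries (ZMod l))).prod) := by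
    have h3 : (L.map fun c => (1 - X ^ size c : PowerSeries (ZMod l))).prod =
        RR (ZMod l) u 0 * gen ((L.map ofNat).foldr dif h) d₀ +
        ∑ k ∈ Finset.range m', (((L.filter fun c => Low (k + 1) c).map
          fun c => (1 - X ^ size c : PowerSeries (ZMod l))).prod * RR (ZMod l) u (k + 1)) *
          F (k + 1) d₀ := by
      rw [h2]
      ring
    rw [h3]
    refine Dv.add (Dv.mul ((hR 0).dv ?_) hpol) (Dv.sum _ fun k hk' => Dv.mul
      (((hLk (k + 1)).mul (hR (k + 1))).dv ?_) (hF1 _ _))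
    · have h4 := hk 0 (Nat.zero_le _)
      have h5 := hsum 0
      have h6 : (L.filter fun c => Low 0 c) = [] := by
        rw [List.filter_eq_nil_iff]
        intro c hc
        simp only [decide_eq_true_eq]
        intro h7
        exact hL c hc (funext fun j => h7 j (Nat.zero_le _))
      rw [h6] at h5
      simp only [List.map_nil, List.sum_nil, zero_add] at h5
      omega
    · have h4 := hk (k + 1) (by have := Finset.mem_range.1 hk'; omega)
      have h5 := hsum (k + 1)
      omega
  exact hb.not_dv hdv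

end main

end ZC.BDX
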